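import Pool.Agent.Q231.GP.Step

/-!
# Cups and caps are in convex position
-/

namespace Pool.Agent.Q231.GP

variable {ι : Type*}

/-- A finite set all of whose triples are positively oriented is convexly independent. The
coordinates are linear functionals of the points. -/
lemma convexIndependent_of_cup (P : ι → ℝ × ℝ) (f g : (ℝ × ℝ) →ₗ[ℝ] ℝ) (C : Finset ι)
    (hinj : ∀ a ∈ C, ∀ b ∈ C, a ≠ b → f (P a) ≠ f (P b))
    (hcup : ∀ a ∈ C, ∀ b ∈ C, ∀ c ∈ C, f (P a) < f (P b) → f (P b) < f (P c) →
      0 < ori (fun i => f (P i)) (fun i => g (P i)) a b c) :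
    ConvexIndependent ℝ (fun a : C => P a) := by
  classical
  set X : ι → ℝ := fun i => f (P i) with hX
  set Y : ι → ℝ := fun i => g (P i) with hY
  rw [convexIndependent_iff_notMem_convexHull_sdiff]
  rintro ⟨b, hb⟩ s
  -- a slope between the slopes on the left and on the right
  obtain ⟨t, ht1, ht2⟩ : ∃ t : ℝ, (∀ u ∈ (C.filter (fun a => X a < X b)).image
      (fun a => sl X Y a b), u < t) ∧ (∀ u ∈ (C.filter (fun a => X b < X a)).image
      (fun a => sl X Y b a), t < u) := by
    apply Order.exists_between_finsets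
    intro x hx y hy
    obtain ⟨a, ha, rfl⟩ := Finset.mem_image.1 hx
    obtain ⟨c, hc, rfl⟩ := Finset.mem_image.1 hy
    rw [Finset.mem_filter] at ha hc
    exact (ori_pos_iff ha.2 hc.2).1 (hcup a ha.1 b hb c hc.1 ha.2 hc.2)
  have hkey : ∀ a ∈ C, a ≠ b → (g - t • f) (P b) < (g - t • f) (P a) := by
    intro a ha hab
    have e1 : (g - t • f) (P b) = Y b - t * X b := by simp [hX, hY]
    have e2 : (g - t • f) (P a) = Y a - t * X a := by simp [hX, hY]
    rw [e1, e2]
    rcases lt_or_gt_of_ne (hinj a ha b hb hab) with h | h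
    · have h1 := ht1 (sl X Y a b) (Finset.mem_image.2 ⟨a, Finset.mem_filter.2 ⟨ha, h⟩, rfl⟩)
      unfold sl at h1
      have h2 : 0 < X b - X a := sub_pos.2 h
      rw [div_lt_iff₀ h2] at h1
      nlinarith
    · have h1 := ht2 (sl X Y b a) (Finset.mem_image.2 ⟨a, Finset.mem_filter.2 ⟨ha, h⟩, rfl⟩)
      unfold sl at h1
      have h2 : 0 < X a - X b := sub_pos.2 h
      rw [lt_div_iff₀ h2] at h1
      nlinarith
  intro hmem
  have hsub : (fun a : C => P a) '' (s \ {⟨b, hb⟩}) ⊆
      {w | (g - t • f) (P b) < (g - t • f) w} := by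
    rintro _ ⟨⟨a, ha⟩, has, rfl⟩
    have hab : a ≠ b := by
      rintro rfl
      exact has.2 rfl
    exact hkey a ha hab
  have hconv : Convex ℝ {w | (g - t • f) (P b) < (g - t • f) w} :=
    convex_halfSpace_gt (g - t • f).isLinear _
  have h2 : (g - t • f) (P b) < (g - t • f) (P b) := convexHull_min hsub hconv hmem
  exact lt_irrefl _ h2

/-- The same for negatively oriented triples. -/
lemma convexIndependent_of_cap (P : ι → ℝ × ℝ) (f g : (ℝ × ℝ) →ₗ[ℝ] ℝ) (C : Finset ι)
    (hinj : ∀ a ∈ C, ∀ b ∈ C, a ≠ b → f (P a) ≠ f (P b))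
    (hcap : ∀ a ∈ C, ∀ b ∈ C, ∀ c ∈ C, f (P a) < f (P b) → f (P b) < f (P c) →
      ori (fun i => f (P i)) (fun i => g (P i)) a b c < 0) :
    ConvexIndependent ℝ (fun a : C => P a) := by
  refine convexIndependent_of_cup P f (-g) C hinj ?_
  intro a ha b hb c hc hab hbc
  have := hcap a ha b hb c hc hab hbc
  unfold ori at this ⊢
  simp only [LinearMap.neg_apply]
  linarith

/-- A linear functional of the form `x + ε y` that separates the points of a finite family. -/
lemma exists_shear [Finite ι] (P : ι → ℝ × ℝ) (hP : Function.Injective P) :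
    ∃ e : ℝ, Function.Injective (fun i => (P i).1 + e * (P i).2) := by
  classical
  have := Fintype.ofFinite ι
  set bad : Finset ℝ := (Finset.univ : Finset (ι × ι)).image
    (fun q => -((P q.1).1 - (P q.2).1) / ((P q.1).2 - (P q.2).2)) with hbad
  obtain ⟨e, he⟩ := Infinite.exists_notMem_finset bad
  refine ⟨e, ?_⟩
  intro a b hab
  simp only at hab
  by_contra hne
  have h1 : (P a).2 - (P b).2 ≠ 0 := by
    intro h
    have h2 : (P a).2 = (P b).2 := sub_eq_zero.1 h
    rw [h2] at hab
    have h3 : (P a).1 = (P b).1 := by linarith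
    exact hne (hP (Prod.ext h3 h2))
  apply he
  rw [hbad, Finset.mem_image]
  refine ⟨(a, b), Finset.mem_univ _, ?_⟩
  simp only
  rw [div_eq_iff h1]
  linarith

/-- Three points of the plane which are not collinear have a nonzero orientation. -/
lemma ori_ne_zero (P : ι → ℝ × ℝ) (e : ℝ) {a b c : ι} (hab : P a ≠ P b)
    (h : ¬ Collinear ℝ {P a, P b, P c}) :
    ori (fun i => (P i).1 + e * (P i).2) (fun i => (P i).2) a b c ≠ 0 := by
  intro h0
  apply h
  unfold ori at h0
  have h1 : ((P b).1 - (P a).1) * ((P c).2 - (P a).2) =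
      ((P b).2 - (P a).2) * ((P c).1 - (P a).1) := by linarith
  rw [collinear_iff_of_mem (p₀ := P a) (by simp)]
  refine ⟨P b - P a, ?_⟩
  have key : ∃ r : ℝ, P c = r • (P b - P a) +ᵥ P a := by
    by_cases hx : (P b).1 - (P a).1 = 0
    · have hy : (P b).2 - (P a).2 ≠ 0 := by
        intro hy
        exact hab (Prod.ext (by linarith) (by linarith))
      refine ⟨((P c).2 - (P a).2) / ((P b).2 - (P a).2), ?_⟩
      have h2 : (P c).1 - (P a).1 = 0 := by
        rw [hx, zero_mul] at h1
        exact (mul_eq_zero.1 h1.symm).resolve_left hy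
      ext
      · simp [hx]; linarith
      · simp only [vadd_eq_add, Prod.snd_add, Prod.smul_snd, Prod.snd_sub, smul_eq_mul]
        rw [div_mul_cancel₀ _ hy]; ring
    · refine ⟨((P c).1 - (P a).1) / ((P b).1 - (P a).1), ?_⟩
      ext
      · simp only [vadd_eq_add, Prod.fst_add, Prod.smul_fst, Prod.fst_sub, smul_eq_mul]
        rw [div_mul_cancel₀ _ hx]; ring
      · simp only [vadd_eq_add, Prod.snd_add, Prod.smul_snd, Prod.snd_sub, smul_eq_mul]
        have h3 : (P c).2 - (P a).2 =
            ((P c).1 - (P a).1) / ((P b).1 - (P a).1) * ((P b).2 - (P a).2) := by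
          rw [div_mul_eq_mul_div, eq_div_iff hx]
          linarith
        linarith
  intro p hp
  simp only [Set.mem_insert_iff, Set.mem_singleton_iff] at hp
  rcases hp with rfl | rfl | rfl
  · exact ⟨0, by simp⟩
  · exact ⟨1, by simp⟩
  · exact key

end Pool.Agent.Q231.GP
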