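import Mathlib

/-!
# Increasing and decreasing chains (Erdős and Szekeres)
-/

namespace Pool.Agent.Q231.GP

variable {ι : Type*}

/-- A finite set on which `f` and `g` are injective, with more than `r * s` elements, has
`r + 1` elements on which `g` increases with `f`, or `s + 1` elements on which it decreases. -/
lemma exists_chain [DecidableEq ι] (f g : ι → ℝ) (hf : Function.Injective f) (s : ℕ) :
    ∀ (r : ℕ) (B : Finset ι), (∀ a ∈ B, ∀ b ∈ B, a ≠ b → g a ≠ g b) → r * s < B.card →
      ∃ C ⊆ B, (C.card = r + 1 ∧ ∀ a ∈ C, ∀ b ∈ C, f a < f b → g a < g b) ∨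
        (C.card = s + 1 ∧ ∀ a ∈ C, ∀ b ∈ C, f a < f b → g b < g a) := by
  classical
  intro r
  induction r with
  | zero =>
    intro B _ hB
    have hne : B.Nonempty := by
      rw [← Finset.card_pos]; omega
    obtain ⟨b, hb⟩ := hne
    refine ⟨{b}, Finset.singleton_subset_iff.2 hb, Or.inl ⟨by simp, ?_⟩⟩
    intro a ha c hc hac
    rw [Finset.mem_singleton] at ha hc
    subst ha; subst hc
    exact absurd hac (lt_irrefl _)
  | succ r ih =>
    intro B hg hB
    set M : Finset ι := B.filter (fun b => ∀ a ∈ B, f a < f b → g b < g a) with hM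
    by_cases hMc : s + 1 ≤ M.card
    · obtain ⟨C, hCM, hC⟩ := Finset.exists_subset_card_eq hMc
      refine ⟨C, hCM.trans (Finset.filter_subset _ _), Or.inr ⟨hC, ?_⟩⟩
      intro a ha b hb hab
      have hbM := (Finset.mem_filter.1 (hCM hb)).2
      exact hbM a (Finset.mem_of_mem_filter a (hCM ha)) hab
    · have hsub : M ⊆ B := Finset.filter_subset _ _
      have hcard : r * s < (B \ M).card := by
        rw [Finset.card_sdiff_of_subset hsub]
        have : (r + 1) * s = r * s + s := by ring
        omega
      obtain ⟨C, hCB, hC⟩ := ih (B \ M)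
        (fun a ha b hb hab => hg a (Finset.mem_sdiff.1 ha).1 b (Finset.mem_sdiff.1 hb).1 hab) hcard
      rcases hC with ⟨hC1, hC2⟩ | ⟨hC1, hC2⟩
      · have hne : C.Nonempty := by
          rw [← Finset.card_pos]; omega
        obtain ⟨b, hbC, hbmin⟩ := C.exists_min_image f hne
        have hbB := Finset.mem_sdiff.1 (hCB hbC)
        have h1 : ¬ ∀ a ∈ B, f a < f b → g b < g a := by
          intro h
          exact hbB.2 (Finset.mem_filter.2 ⟨hbB.1, h⟩)
        push Not at h1
        obtain ⟨a, haB, hab, hgab⟩ := h1
        have hne' : a ≠ b := by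
          rintro rfl
          exact lt_irrefl _ hab
        have hlt : g a < g b := lt_of_le_of_ne hgab (hg a haB b hbB.1 hne')
        have haC : a ∉ C := fun h => absurd hab (not_lt.2 (hbmin a h))
        refine ⟨insert a C, ?_, Or.inl ⟨?_, ?_⟩⟩
        · intro x hx
          rcases Finset.mem_insert.1 hx with rfl | hx
          · exact haB
          · exact (Finset.mem_sdiff.1 (hCB hx)).1
        · rw [Finset.card_insert_of_notMem haC]; omega
        · intro x hx y hy hxy
          rcases Finset.mem_insert.1 hx with hxa | hx
          · rcases Finset.mem_insert.1 hy with hya | hy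
            · rw [hxa, hya] at hxy
              exact absurd hxy (lt_irrefl _)
            · rw [hxa]
              rcases eq_or_ne b y with hby | hby
              · rw [← hby]; exact hlt
              · have h3 : f b < f y := lt_of_le_of_ne (hbmin y hy) (fun h => hby (hf h))
                exact hlt.trans (hC2 b hbC y hy h3)
          · rcases Finset.mem_insert.1 hy with hya | hy
            · rw [hya] at hxy
              exact absurd (hxy.trans hab) (not_lt.2 (hbmin x hx))
            · exact hC2 x hx y hy hxy
      · exact ⟨C, hCB.trans Finset.sdiff_subset, Or.inr ⟨hC1, hC2⟩⟩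

end Pool.Agent.Q231.GP
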