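import Pool.Agent.Q231.GP.Conv
import Pool.Agent.Q231.GP.ES

/-!
# Monochromatic convex polygons: the upper bound
-/

namespace Pool.Agent.Q231.GP

/-- A family of `n` distinct points of the plane in general position (no three collinear). -/
def GeneralPosition {n : ℕ} (P : Fin n → ℝ × ℝ) : Prop :=
  Function.Injective P ∧
    ∀ a b c : Fin n, a ≠ b → b ≠ c → a ≠ c → ¬ Collinear ℝ {P a, P b, P c}

/-- For every set of `n` points in general position in the plane and every colouring of the pairs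
with `k` colours, some `p` of the points are in convex position and all pairs of them have the
same colour. -/
def Arrow (k p n : ℕ) : Prop :=
  ∀ P : Fin n → ℝ × ℝ, GeneralPosition P → ∀ c : Sym2 (Fin n) → Fin k,
    ∃ A : Finset (Fin n), A.card = p ∧ ConvexIndependent ℝ (fun a : A => P a) ∧
      ∃ i : Fin k, ∀ a ∈ A, ∀ b ∈ A, a ≠ b → c s(a, b) = i

theorem arrow_of_pow_le (k p n : ℕ) (hk : 1 ≤ k) (hp : 3 ≤ p)
    (hn : (k * (k * (p - 2) ^ 2 + 1)) ^ (k * (p - 2) ^ 2 + 1) ≤ n) : Arrow k p n := by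
  classical
  intro P hP c
  obtain ⟨e, he⟩ := exists_shear P hP.1
  set m := k * (p - 2) ^ 2 + 1 with hm
  have hp2 : 1 ≤ (p - 2) ^ 2 := Nat.one_le_pow _ _ (by omega)
  have hm2 : 2 ≤ m := by
    have : 1 * 1 ≤ k * (p - 2) ^ 2 := Nat.mul_le_mul hk hp2
    omega
  have hM2 : 2 ≤ k * m := by
    have : 1 * 2 ≤ k * m := Nat.mul_le_mul hk hm2
    omega
  set f : (ℝ × ℝ) →ₗ[ℝ] ℝ := LinearMap.fst ℝ ℝ ℝ + e • LinearMap.snd ℝ ℝ ℝ with hf
  set g : (ℝ × ℝ) →ₗ[ℝ] ℝ := LinearMap.snd ℝ ℝ ℝ with hg
  set X : Fin n → ℝ := fun i => f (P i) with hX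
  set Y : Fin n → ℝ := fun i => g (P i) with hY
  have hXe : X = fun i => (P i).1 + e * (P i).2 := rfl
  have hYe : Y = fun i => (P i).2 := rfl
  have hXinj : Function.Injective X := by rw [hXe]; exact he
  have hori : ∀ a b d : Fin n, X a < X b → X b < X d → ori X Y a b d ≠ 0 := by
    intro a b d hab hbd
    have h1 : a ≠ b := fun h => by rw [h] at hab; exact lt_irrefl _ hab
    have h2 : b ≠ d := fun h => by rw [h] at hbd; exact lt_irrefl _ hbd
    have h3 : a ≠ d := fun h => by rw [h] at hab; exact lt_irrefl _ (hab.trans hbd)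
    rw [hXe, hYe]
    exact ori_ne_zero P e (fun h => h1 (hP.1 h)) (hP.2 a b d h1 h2 h3)
  -- the picks
  have h0 : Inv X Y (fun a b => c s(a, b)) (∅ : Finset (Fin n)) Finset.univ :=
    ⟨by simp, by simp, by simp⟩
  obtain ⟨A, S, hI, hA, z, hz⟩ := Inv.many (m := m) (M := k * m) hXinj le_rfl hM2 m ∅
    Finset.univ h0 (by simp) (by simpa using hn)
  -- one colour
  have hmaps : ∀ a ∈ A, c s(a, z) ∈ (Finset.univ : Finset (Fin k)) := fun _ _ => Finset.mem_univ _
  obtain ⟨i, -, hi⟩ := Finset.exists_lt_card_fiber_of_mul_lt_card_of_maps_to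
    (n := (p - 2) ^ 2) hmaps (by rw [Finset.card_univ, Fintype.card_fin, hA]; omega)
  set B := A.filter (fun a => c s(a, z) = i) with hB
  have hBA : B ⊆ A := Finset.filter_subset _ _
  have hAz : ∀ a ∈ A, X a < X z := fun a ha => hI.left a ha z hz
  -- slopes to `z`
  have hslne : ∀ a ∈ B, ∀ b ∈ B, a ≠ b → sl X Y a z ≠ sl X Y b z := by
    have key : ∀ a ∈ B, ∀ b ∈ B, X a < X b → sl X Y a z ≠ sl X Y b z := by
      intro a ha b hb hab heq
      have h1 := hori a b z hab (hAz b (hBA hb))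
      rcases lt_or_gt_of_ne h1 with h2 | h2
      · rw [ori_neg_iff' hab (hAz b (hBA hb)), heq] at h2
        exact lt_irrefl _ h2
      · rw [ori_pos_iff' hab (hAz b (hBA hb)), heq] at h2
        exact lt_irrefl _ h2
    intro a ha b hb hab
    rcases lt_or_gt_of_ne (fun h => hab (hXinj h) : X a ≠ X b) with h | h
    · exact key a ha b hb h
    · exact (key b hb a ha h).symm
  obtain ⟨C, hCB, hC⟩ := exists_chain X (fun a => sl X Y a z) hXinj (p - 2) (p - 2) B hslne
    (by rw [← pow_two]; exact hi)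
  have hCA : C ⊆ A := hCB.trans hBA
  have hzC : z ∉ C := fun h => lt_irrefl _ (hAz z (hCA h))
  have hcardC : C.card = p - 1 := by
    rcases hC with ⟨h, -⟩ | ⟨h, -⟩ <;> omega
  have hmemAS : ∀ x ∈ insert z C, x ∈ A ∪ S := by
    intro x hx
    rcases Finset.mem_insert.1 hx with rfl | hx
    · exact Finset.mem_union_right _ hz
    · exact Finset.mem_union_left _ (hCA hx)
  have hzAS : z ∈ A ∪ S := Finset.mem_union_right _ hz
  have hzright : ∀ x ∈ insert z C, X x ≤ X z := by
    intro x hx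
    rcases Finset.mem_insert.1 hx with rfl | hx
    · exact le_rfl
    · exact (hAz x (hCA hx)).le
  have hleftC : ∀ x ∈ insert z C, ∀ y ∈ insert z C, X x < X y → x ∈ C := by
    intro x hx y hy hxy
    rcases Finset.mem_insert.1 hx with rfl | hx
    · exact absurd hxy (not_lt.2 (hzright y hy))
    · exact hx
  have hcol : ∀ a ∈ insert z C, ∀ b ∈ insert z C, X a < X b → c s(a, b) = i := by
    intro a ha b hb hab
    have haC := hleftC a ha b hb hab
    have h1 := hI.col a (hCA haC) b (hmemAS b hb) z hzAS hab (hAz a (hCA haC))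
    have h2 := (Finset.mem_filter.1 (hCB haC)).2
    exact h1.trans h2
  have hinjf : ∀ a ∈ insert z C, ∀ b ∈ insert z C, a ≠ b → f (P a) ≠ f (P b) :=
    fun a _ b _ hab h => hab (hXinj h)
  refine ⟨insert z C, ?_, ?_, i, ?_⟩
  · rw [Finset.card_insert_of_notMem hzC, hcardC]; omega
  · rcases hC with ⟨-, hC⟩ | ⟨-, hC⟩
    · apply convexIndependent_of_cup P f g (insert z C) hinjf
      intro a ha b hb d hd hab hbd
      have haC := hleftC a ha b hb hab
      have hbC := hleftC b hb d hd hbd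
      have h1 : 0 < ori X Y a b z :=
        (ori_pos_iff' (X := X) (Y := Y) hab (hAz b (hCA hbC))).2 (hC a haC b hbC hab)
      exact (hI.dir a (hCA haC) b (hCA hbC) hab d (hmemAS d hd) z hzAS hbd
        (hAz b (hCA hbC))).2 h1
    · apply convexIndependent_of_cap P f g (insert z C) hinjf
      intro a ha b hb d hd hab hbd
      have haC := hleftC a ha b hb hab
      have hbC := hleftC b hb d hd hbd
      have h1 : ori X Y a b z < 0 :=
        (ori_neg_iff' (X := X) (Y := Y) hab (hAz b (hCA hbC))).2 (hC a haC b hbC hab)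
      rcases lt_or_gt_of_ne (hori a b d hab hbd) with h2 | h2
      · exact h2
      · exact absurd ((hI.dir a (hCA haC) b (hCA hbC) hab d (hmemAS d hd) z hzAS hbd
          (hAz b (hCA hbC))).1 h2) (not_lt.2 h1.le)
  · intro a ha b hb hab
    rcases lt_or_gt_of_ne (fun h => hab (hXinj h) : X a ≠ X b) with h | h
    · exact hcol a ha b hb h
    · rw [Sym2.eq_swap]
      exact hcol b hb a ha h

end Pool.Agent.Q231.GP
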