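import Mathlib

/-!
# Nested picks in a coloured point set

`X`, `Y` are the coordinates, `c` is a colouring of the ordered pairs (symmetry is not used here).
-/

namespace Pool.Agent.Q231.GP

variable {ι : Type*}

/-- The orientation of three points. -/
def ori (X Y : ι → ℝ) (a b c : ι) : ℝ :=
  (X b - X a) * (Y c - Y a) - (Y b - Y a) * (X c - X a)

/-- The slope. -/
noncomputable def sl (X Y : ι → ℝ) (a b : ι) : ℝ := (Y b - Y a) / (X b - X a)

lemma ori_pos_iff {X Y : ι → ℝ} {a b c : ι} (hab : X a < X b) (hbc : X b < X c) :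
    0 < ori X Y a b c ↔ sl X Y a b < sl X Y b c := by
  unfold ori sl
  rw [div_lt_div_iff₀ (by linarith) (by linarith)]
  constructor <;> intro h <;> nlinarith

lemma ori_neg_iff {X Y : ι → ℝ} {a b c : ι} (hab : X a < X b) (hbc : X b < X c) :
    ori X Y a b c < 0 ↔ sl X Y b c < sl X Y a b := by
  unfold ori sl
  rw [div_lt_div_iff₀ (by linarith) (by linarith)]
  constructor <;> intro h <;> nlinarith

lemma ori_pos_iff' {X Y : ι → ℝ} {a b c : ι} (hab : X a < X b) (hbc : X b < X c) :
    0 < ori X Y a b c ↔ sl X Y a c < sl X Y b c := by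
  unfold ori sl
  rw [div_lt_div_iff₀ (by linarith) (by linarith)]
  constructor <;> intro h <;> nlinarith

lemma ori_neg_iff' {X Y : ι → ℝ} {a b c : ι} (hab : X a < X b) (hbc : X b < X c) :
    ori X Y a b c < 0 ↔ sl X Y b c < sl X Y a c := by
  unfold ori sl
  rw [div_lt_div_iff₀ (by linarith) (by linarith)]
  constructor <;> intro h <;> nlinarith

/-- The invariants of the process: `A` are the picks, `S` the candidates. -/
structure Inv [DecidableEq ι] (X Y : ι → ℝ) {k : ℕ} (c : ι → ι → Fin k) (A S : Finset ι) : Prop where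
  left : ∀ a ∈ A, ∀ x ∈ S, X a < X x
  col : ∀ a ∈ A, ∀ x ∈ A ∪ S, ∀ y ∈ A ∪ S, X a < X x → X a < X y → c a x = c a y
  dir : ∀ a ∈ A, ∀ b ∈ A, X a < X b → ∀ x ∈ A ∪ S, ∀ y ∈ A ∪ S, X b < X x → X b < X y →
    (0 < ori X Y a b x ↔ 0 < ori X Y a b y)

/-- One pick. -/
lemma Inv.step [DecidableEq ι] {X Y : ι → ℝ} {k : ℕ} {c : ι → ι → Fin k} {A S : Finset ι}
    (h : Inv X Y c A S) (hX : Function.Injective X) {N : ℕ}
    (hN : k * (A.card + 1) * N + 1 < S.card) :
    ∃ v T, v ∉ A ∧ N < T.card ∧ Inv X Y c (insert v A) T := by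
  classical
  have hne : S.Nonempty := by
    rw [← Finset.card_pos]; omega
  obtain ⟨v, hvS, hvmin⟩ := S.exists_min_image X hne
  have hvlt : ∀ x ∈ S.erase v, X v < X x := by
    intro x hx
    rcases lt_or_eq_of_le (hvmin x (Finset.mem_of_mem_erase hx)) with h1 | h1
    · exact h1
    · exact absurd (hX h1).symm (Finset.ne_of_mem_erase hx)
  set D : ι → Finset ι := fun x => A.filter (fun a => 0 < ori X Y a v x) with hD
  set F : ι → Fin k × ℕ := fun x => (c v x, (D x).card) with hF
  set t : Finset (Fin k × ℕ) := Finset.univ ×ˢ Finset.range (A.card + 1) with ht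
  have htc : t.card = k * (A.card + 1) := by
    simp [ht]
  have hmaps : ∀ x ∈ S.erase v, F x ∈ t := by
    intro x _
    simp only [hF, ht, Finset.mem_product, Finset.mem_univ, Finset.mem_range, true_and]
    exact Nat.lt_succ_of_le (Finset.card_le_card (Finset.filter_subset _ _))
  have hcard : t.card * N < (S.erase v).card := by
    rw [htc, Finset.card_erase_of_mem hvS]; omega
  obtain ⟨q, hq, hqN⟩ := Finset.exists_lt_card_fiber_of_mul_lt_card_of_maps_to hmaps hcard
  set T : Finset ι := (S.erase v).filter (fun x => F x = q) with hT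
  have hTS : ∀ x ∈ T, x ∈ S := fun x hx =>
    Finset.mem_of_mem_erase (Finset.mem_filter.1 hx).1
  have hTv : ∀ x ∈ T, X v < X x := fun x hx => hvlt x (Finset.mem_filter.1 hx).1
  have hAv : ∀ a ∈ A, X a < X v := fun a ha => h.left a ha v hvS
  have hvA : v ∉ A := fun hv => lt_irrefl _ (hAv v hv)
  -- membership in the new union
  have hmem : ∀ x ∈ insert v A ∪ T, x ∈ A ∪ S := by
    intro x hx
    rcases Finset.mem_union.1 hx with hx | hx
    · rcases Finset.mem_insert.1 hx with rfl | hx
      · exact Finset.mem_union_right _ hvS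
      · exact Finset.mem_union_left _ hx
    · exact Finset.mem_union_right _ (hTS x hx)
  have hright : ∀ x ∈ insert v A ∪ T, X v < X x → x ∈ T := by
    intro x hx hlt
    rcases Finset.mem_union.1 hx with hx | hx
    · rcases Finset.mem_insert.1 hx with rfl | hx
      · exact absurd hlt (lt_irrefl _)
      · exact absurd (hAv x hx) (not_lt.2 hlt.le)
    · exact hx
  -- equal classes see the same directions
  have hsame : ∀ x ∈ T, ∀ y ∈ T, D x = D y := by
    intro x hx y hy
    have hxy : (D x).card = (D y).card := by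
      have h1 := (Finset.mem_filter.1 hx).2
      have h2 := (Finset.mem_filter.1 hy).2
      have h3 : F x = F y := h1.trans h2.symm
      exact congrArg Prod.snd h3
    have hnest : ∀ x ∈ T, ∀ y ∈ T, sl X Y v x ≤ sl X Y v y → D x ⊆ D y := by
      intro x hx y hy hle a ha
      simp only [hD, Finset.mem_filter] at ha ⊢
      refine ⟨ha.1, ?_⟩
      rw [ori_pos_iff (hAv a ha.1) (hTv x hx)] at ha
      rw [ori_pos_iff (hAv a ha.1) (hTv y hy)]
      exact lt_of_lt_of_le ha.2 hle
    rcases le_total (sl X Y v x) (sl X Y v y) with hle | hle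
    · exact Finset.eq_of_subset_of_card_le (hnest x hx y hy hle) hxy.ge
    · exact (Finset.eq_of_subset_of_card_le (hnest y hy x hx hle) hxy.le).symm
  refine ⟨v, T, hvA, hqN, ?_, ?_, ?_⟩
  · intro a ha x hx
    rcases Finset.mem_insert.1 ha with rfl | ha
    · exact hTv x hx
    · exact h.left a ha x (hTS x hx)
  · intro a ha x hx y hy hax hay
    rcases Finset.mem_insert.1 ha with rfl | ha
    · have hx' := hright x hx hax
      have hy' := hright y hy hay
      have h1 := (Finset.mem_filter.1 hx').2
      have h2 := (Finset.mem_filter.1 hy').2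
      exact congrArg Prod.fst (h1.trans h2.symm)
    · exact h.col a ha x (hmem x hx) y (hmem y hy) hax hay
  · intro a ha b hb hab x hx y hy hbx hby
    rcases Finset.mem_insert.1 hb with hbv | hbA
    · subst hbv
      rcases Finset.mem_insert.1 ha with rfl | ha
      · exact absurd hab (lt_irrefl _)
      · have hx' := hright x hx hbx
        have hy' := hright y hy hby
        have h1 := hsame x hx' y hy'
        have h2 : a ∈ D x ↔ a ∈ D y := by rw [h1]
        simpa [hD, ha] using h2
    · rcases Finset.mem_insert.1 ha with hav | haA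
      · rw [hav] at hab
        exact absurd (hAv b hbA) (not_lt.2 hab.le)
      · exact h.dir a haA b hbA hab x (hmem x hx) y (hmem y hy) hbx hby

/-- Many picks. -/
lemma Inv.many [DecidableEq ι] {X Y : ι → ℝ} {k : ℕ} {c : ι → ι → Fin k} (hX : Function.Injective X)
    {m M : ℕ} (hM : k * m ≤ M) (hM2 : 2 ≤ M) :
    ∀ (r : ℕ) (A S : Finset ι), Inv X Y c A S → A.card + r = m → M ^ r ≤ S.card →
      ∃ A' S' : Finset ι, Inv X Y c A' S' ∧ A'.card = m ∧ S'.Nonempty := by
  intro r
  induction r with
  | zero =>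
    intro A S h hA hS
    refine ⟨A, S, h, by omega, ?_⟩
    rw [← Finset.card_pos]
    simpa using hS
  | succ r ih =>
    intro A S h hA hS
    have hpos : 1 ≤ M ^ r := Nat.one_le_pow _ _ (by omega)
    have h1 : k * (A.card + 1) ≤ M := le_trans (Nat.mul_le_mul_left k (by omega)) hM
    have h2 : k * (A.card + 1) * (M ^ r - 1) + 1 < S.card := by
      have h3 : k * (A.card + 1) * (M ^ r - 1) ≤ M * (M ^ r - 1) := Nat.mul_le_mul_right _ h1
      have h4 : M * (M ^ r - 1) + M = M ^ (r + 1) := by
        rw [← Nat.mul_succ, Nat.succ_eq_add_one, Nat.sub_add_cancel hpos, pow_succ, mul_comm]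
      omega
    obtain ⟨v, T, hv, hT, hI⟩ := h.step hX h2
    refine ih (insert v A) T hI ?_ (by omega)
    rw [Finset.card_insert_of_notMem hv]; omega

end Pool.Agent.Q231.GP
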